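import Mathlib

/-!
Project NV (helper773): primes in a short interval which do not divide a number.
-/

set_option autoImplicit false

namespace Pool.Agent.Y25.NV

lemma ineq (v : ℝ) (hv : 10 ≤ v) : (v ^ 4 + 48 * v) * (8 * v) ≤ (v ^ 8 - 1) * 0.69 - 8 * v := by
  have h2 : 100 ≤ v ^ 2 := by nlinarith
  have h3 : 1000 ≤ v ^ 3 := by nlinarith [pow_succ v 2]
  have h5 : 0 ≤ v ^ 5 := by positivity
  have h5' : 100000 ≤ v ^ 5 := by
    have : v ^ 5 = v ^ 3 * v ^ 2 := by ring
    nlinarith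
  have h8 : 1000 * v ^ 5 ≤ v ^ 8 := by
    have : v ^ 8 = v ^ 3 * v ^ 5 := by ring
    rw [this]
    exact mul_le_mul_of_nonneg_right h3 h5
  have h52 : 1000 * v ^ 2 ≤ v ^ 5 := by
    have : v ^ 5 = v ^ 3 * v ^ 2 := by ring
    rw [this]
    exact mul_le_mul_of_nonneg_right h3 (by positivity)
  have hv2 : v ≤ v ^ 2 := by nlinarith
  nlinarith

lemma num (Y N : ℕ) (hY : 10 ^ 8 ≤ Y) (hN0 : 0 < N) (hN : N < (Y + 1) ^ 4) :
    Real.sqrt Y ≤ (((Finset.range (Y + 1)).filter fun p => p.Prime ∧ ¬ p ∣ N).card : ℝ) := by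
  classical
  set A := (Finset.range (Y + 1)).filter fun p => p.Prime ∧ ¬ p ∣ N with hA
  have hYr : (10 : ℝ) ^ 8 ≤ Y := by exact_mod_cast hY
  have hpi : (Nat.primeCounting Y : ℝ) ≤ (A.card : ℝ) + (N.primeFactors.card : ℝ) := by
    have h1 : Nat.primeCounting Y = ((Finset.range (Y + 1)).filter Nat.Prime).card := by
      unfold Nat.primeCounting Nat.primeCounting'
      rw [Nat.count_eq_card_filter_range]
    have h2 : (Finset.range (Y + 1)).filter Nat.Prime ⊆ A ∪ N.primeFactors := by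
      intro p hp
      rw [Finset.mem_filter] at hp
      rw [Finset.mem_union, hA, Finset.mem_filter, Nat.mem_primeFactors]
      by_cases h : p ∣ N
      · exact Or.inr ⟨hp.2, h, hN0.ne'⟩
      · exact Or.inl ⟨hp.1, hp.2, h⟩
    have h3 := (Finset.card_le_card h2).trans (Finset.card_union_le _ _)
    rw [h1]
    exact_mod_cast h3
  have hom : (N.primeFactors.card : ℝ) ≤ 6 * Real.log (Y + 1) := by
    have h1 : 2 ^ N.primeFactors.card ≤ ∏ p ∈ N.primeFactors, p :=
      Finset.pow_card_le_prod _ _ _ fun p hp => (Nat.prime_of_mem_primeFactors hp).two_le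
    have h2 : ∏ p ∈ N.primeFactors, p ≤ N := Nat.le_of_dvd hN0 (Nat.prod_primeFactors_dvd N)
    have h3 : 2 ^ N.primeFactors.card ≤ (Y + 1) ^ 4 := (h1.trans h2).trans hN.le
    have h4 : (2 : ℝ) ^ N.primeFactors.card ≤ (Y + 1) ^ 4 := by exact_mod_cast h3
    have h5 := Real.log_le_log (by positivity) h4
    rw [Real.log_pow, Real.log_pow] at h5
    have h6 := Real.log_two_gt_d9
    have h7 : 0 ≤ Real.log ((Y : ℝ) + 1) := Real.log_nonneg (by linarith)
    have h8 : (0 : ℝ) ≤ N.primeFactors.card := by positivity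
    push_cast at h5
    nlinarith
  have hch := Chebyshev.pi_ge Y
  have hlY : 0 < Real.log Y := Real.log_pos (by linarith)
  rw [div_le_iff₀ hlY] at hch
  set v : ℝ := ((Y : ℝ) + 1) ^ (1 / 8 : ℝ) with hv
  have hv8 : v ^ 8 = (Y : ℝ) + 1 := by
    rw [hv, ← Real.rpow_natCast, ← Real.rpow_mul (by linarith)]
    norm_num
  have hv0 : 0 ≤ v := Real.rpow_nonneg (by linarith) _
  have hv10 : 10 ≤ v := by
    by_contra hcon
    push Not at hcon
    have h1 : v ^ 8 < 10 ^ 8 := pow_lt_pow_left₀ hcon hv0 (by norm_num)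
    rw [hv8] at h1
    linarith
  have hlog : Real.log ((Y : ℝ) + 1) ≤ 8 * v := by
    have h1 := Real.log_le_rpow_div (x := (Y : ℝ) + 1) (by linarith) (ε := 1 / 8) (by norm_num)
    rw [← hv] at h1
    linarith
  have hlY' : Real.log Y ≤ Real.log ((Y : ℝ) + 1) := Real.log_le_log (by linarith) (by linarith)
  have hsq : Real.sqrt Y ≤ v ^ 4 := by
    rw [Real.sqrt_le_left (by positivity)]
    have : (v ^ 4) ^ 2 = v ^ 8 := by ring
    rw [this, hv8]
    linarith
  have h2 := ineq v hv10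
  have h6 := Real.log_two_gt_d9
  -- the main comparison
  have h3 : (Real.sqrt Y + 6 * Real.log ((Y : ℝ) + 1)) * Real.log Y ≤
      (Nat.primeCounting Y : ℝ) * Real.log Y := by
    have h4 : (Real.sqrt Y + 6 * Real.log ((Y : ℝ) + 1)) * Real.log Y ≤
        (v ^ 4 + 48 * v) * (8 * v) := by
      apply mul_le_mul _ (hlY'.trans hlog) hlY.le (by positivity)
      linarith
    have h5 : (v ^ 8 - 1) * 0.69 ≤ (Y : ℝ) * Real.log 2 := by
      rw [hv8]
      nlinarith
    have h7 : (Y : ℝ) * Real.log 2 - Real.log ((Y : ℝ) + 1) ≤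
        (Nat.primeCounting Y : ℝ) * Real.log Y := hch
    linarith
  have h8 : Real.sqrt Y + 6 * Real.log ((Y : ℝ) + 1) ≤ (Nat.primeCounting Y : ℝ) :=
    le_of_mul_le_mul_right h3 hlY
  linarith

end Pool.Agent.Y25.NV
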