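import Pool.Agent.Y773.NV.St2
import Pool.Agent.Y25.NV.UniN

/-!
Project NV (helper773): few primitive characters are quadratic on the rational integers.
-/

set_option autoImplicit false

open NumberField

namespace Pool.Agent.Y25.NV

open Pool.Agent.Y773 (TPos)
open Pool.Agent.Y773.NV (nm St_RST St_UNI)

section

variable {K : Type} [Field K] [NumberField K]

lemma tpos_all [IsTotallyComplex K] (x : 𝓞 K) : TPos K x := by
  intro σ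
  exfalso
  have h := IsTotallyComplex.complexEmbedding_not_isReal (K := K) (Complex.ofRealHom.comp σ)
  apply h
  rw [ComplexEmbedding.isReal_iff]
  ext y
  rw [ComplexEmbedding.conjugate_coe_eq]
  simp

/-- a character depends only on the residue class -/
lemma congr_val [IsTotallyComplex K] {𝔣 : Ideal (𝓞 K)} {ψ : Ideal (𝓞 K) →*₀ ℂ}
    (h : Pool.Agent.Y773.G.IsPrimChar K 𝔣 ψ) (ht : 𝔣 ≠ ⊤) {x y w : 𝓞 K} (hxy : x - y ∈ 𝔣)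
    (hw : w * y - 1 ∈ 𝔣) : ψ (Ideal.span {x}) = ψ (Ideal.span {y}) := by
  have hne : ∀ z : 𝓞 K, z - 1 ∈ 𝔣 → z ≠ 0 := by
    rintro z hz rfl
    apply ht
    rw [Ideal.eq_top_iff_one]
    have h1 := neg_mem hz
    rwa [zero_sub, neg_neg] at h1
  have hw' : w * x - 1 ∈ 𝔣 := by
    have : w * x - 1 = (w * y - 1) + w * (x - y) := by ring
    rw [this]
    exact add_mem hw (Ideal.mul_mem_left _ _ hxy)
  have h1 := h.ray (w * x) (hne _ hw') hw' (tpos_all _)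
  have h2 := h.ray (w * y) (hne _ hw) hw (tpos_all _)
  rw [← Ideal.span_singleton_mul_span_singleton, map_mul] at h1 h2
  have h3 : ψ (Ideal.span {w}) ≠ 0 := by
    intro h4; rw [h4, zero_mul] at h1; exact zero_ne_one h1
  exact mul_left_cancel₀ h3 (h1.trans h2.symm)

/-- an inverse of a rational integer prime to the norm -/
lemma exists_inv {𝔣 : Ideal (𝓞 K)} {n : ℕ} (hn : Nat.Coprime n (Ideal.absNorm 𝔣)) :
    ∃ w : 𝓞 K, w * (n : 𝓞 K) - 1 ∈ 𝔣 := by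
  have h1 : IsCoprime (n : ℤ) (Ideal.absNorm 𝔣 : ℤ) := Nat.isCoprime_iff_coprime.2 hn
  obtain ⟨a, b, hab⟩ := h1
  refine ⟨(a : 𝓞 K), ?_⟩
  have h2 : ((a : 𝓞 K) * (n : 𝓞 K) - 1) = -((b : 𝓞 K)) * (Ideal.absNorm 𝔣 : 𝓞 K) := by
    have h3 : ((a * (n : ℤ) + b * (Ideal.absNorm 𝔣 : ℤ) : ℤ) : 𝓞 K) = ((1 : ℤ) : 𝓞 K) := by
      rw [hab]
    push_cast at h3
    linear_combination h3
  rw [h2]
  exact Ideal.mul_mem_left _ _ (Ideal.absNorm_mem 𝔣)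

lemma isUnit_nat {𝔣 : Ideal (𝓞 K)} {n : ℕ} (hn : Nat.Coprime n (Ideal.absNorm 𝔣)) :
    IsUnit (Ideal.Quotient.mk 𝔣 (n : 𝓞 K)) := by
  obtain ⟨w, hw⟩ := exists_inv hn
  rw [isUnit_iff_exists_inv']
  refine ⟨Ideal.Quotient.mk 𝔣 w, ?_⟩
  rw [← map_mul, ← map_one (Ideal.Quotient.mk 𝔣), Ideal.Quotient.eq]
  exact hw

/-- integers in the ideal -/
lemma int_mem (h2 : Module.finrank ℚ K = 2) {𝔣 : Ideal (𝓞 K)} {m : ℤ} (hm : (m : 𝓞 K) ∈ 𝔣)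
    (h0 : m ≠ 0) : (Ideal.absNorm 𝔣 : ℤ) ≤ m ^ 2 := by
  have h1 : Ideal.absNorm 𝔣 ∣ Ideal.absNorm (Ideal.span {(m : 𝓞 K)}) :=
    Ideal.absNorm_dvd_absNorm_of_le ((Ideal.span_singleton_le_iff_mem 𝔣).2 hm)
  rw [Ideal.absNorm_span_singleton] at h1
  have h3 : (m : 𝓞 K) = algebraMap ℤ (𝓞 K) m := (algebraMap_int_eq (𝓞 K) ▸ rfl)
  rw [h3, Algebra.norm_algebraMap, RingOfIntegers.rank, h2, Int.natAbs_pow] at h1
  have h4 : 0 < m.natAbs ^ 2 := pow_pos (Int.natAbs_pos.2 h0) _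
  have h5 := Nat.le_of_dvd h4 h1
  have h6 : ((m.natAbs ^ 2 : ℕ) : ℤ) = m ^ 2 := by
    push_cast
    exact sq_abs m
  rw [← h6]
  exact_mod_cast h5

end

open Classical in
/-- the class of `n ^ 2` -/
noncomputable def sqc {K : Type} [Field K] [NumberField K] (𝔣 : Ideal (𝓞 K)) (n : ℕ) :
    (𝓞 K ⧸ 𝔣)ˣ :=
  if h : Nat.Coprime n (Ideal.absNorm 𝔣) then (isUnit_nat h).unit ^ 2 else 1

lemma sqc_val {K : Type} [Field K] [NumberField K] {𝔣 : Ideal (𝓞 K)} {n : ℕ}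
    (h : Nat.Coprime n (Ideal.absNorm 𝔣)) :
    ((sqc 𝔣 n : (𝓞 K ⧸ 𝔣)ˣ) : 𝓞 K ⧸ 𝔣) = Ideal.Quotient.mk 𝔣 ((n : 𝓞 K) ^ 2) := by
  unfold sqc
  rw [dif_pos h, Units.val_pow_eq_pow_val, map_pow]
  rfl

/-- **UNI** -/
theorem t_uni : St_RST → St_UNI := by
  intro hR K _ _ _ h2
  classical
  set h : ℝ := (Nat.card (ClassGroup (𝓞 K)) : ℝ) with hh
  have hh0 : 0 ≤ h := by positivity
  refine ⟨h * (2 + (10 ^ 8 + 1 : ℝ) ^ (1 / 2 : ℝ)), by positivity, ?_⟩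
  intro 𝔣 S hbot htop hS hq
  set N : ℕ := Ideal.absNorm 𝔣 with hN
  have hN0 : 0 < N := Nat.pos_of_ne_zero (by rw [hN, Ne, Ideal.absNorm_eq_zero_iff]; exact hbot)
  have hfin : Finite (𝓞 K ⧸ 𝔣) := Ideal.finiteQuotientOfFreeOfNeBot 𝔣 hbot
  have hcard : Nat.card (𝓞 K ⧸ 𝔣)ˣ ≤ N := by
    have h1 : Nat.card (𝓞 K ⧸ 𝔣)ˣ ≤ Nat.card (𝓞 K ⧸ 𝔣) :=
      Nat.card_le_card_of_injective _ Units.val_injective
    have h3 : Nat.card (𝓞 K ⧸ 𝔣) = N := by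
      rw [hN, Ideal.absNorm_apply, Submodule.cardQuot_apply]
    rwa [h3] at h1
  have hRST : ∀ T : Finset ((𝓞 K ⧸ 𝔣)ˣ), (∀ ψ ∈ S, ∀ u ∈ T, ∀ x : 𝓞 K,
      Ideal.Quotient.mk 𝔣 x = (u : 𝓞 K ⧸ 𝔣) → ψ (Ideal.span {x}) = 1) →
      (S.card : ℝ) * T.card ≤ h * N := by
    intro T hT
    have h1 := hR K 𝔣 S T hbot htop hS hT
    have h3 : S.card * T.card ≤ Nat.card (ClassGroup (𝓞 K)) * N :=
      h1.trans (Nat.mul_le_mul_left _ hcard)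
    rw [hh]
    exact_mod_cast h3
  have hNr : (1 : ℝ) ≤ (N : ℝ) := by exact_mod_cast hN0
  have hnm : nm 𝔣 = (N : ℝ) := rfl
  rw [hnm]
  have hN78 : (0 : ℝ) ≤ (N : ℝ) ^ (7 / 8 : ℝ) := Real.rpow_nonneg (by linarith) _
  have hNsplit : (N : ℝ) = (N : ℝ) ^ (7 / 8 : ℝ) * (N : ℝ) ^ (1 / 8 : ℝ) := by
    rw [← Real.rpow_add (by linarith)]
    norm_num
  set Y : ℕ := Nat.sqrt (Nat.sqrt N) with hY
  have hY4 : Y ^ 4 ≤ N := by
    have h1 : Y ^ 2 ≤ Nat.sqrt N := Nat.sqrt_le' _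
    have h3 : Nat.sqrt N ^ 2 ≤ N := Nat.sqrt_le' _
    calc Y ^ 4 = (Y ^ 2) ^ 2 := by ring
      _ ≤ Nat.sqrt N ^ 2 := Nat.pow_le_pow_left h1 2
      _ ≤ N := h3
  have hY4' : N < (Y + 1) ^ 4 := by
    have h1 : Nat.sqrt N < (Y + 1) ^ 2 := Nat.lt_succ_sqrt' _
    have h3 : N < (Nat.sqrt N + 1) ^ 2 := Nat.lt_succ_sqrt' _
    calc N < (Nat.sqrt N + 1) ^ 2 := h3
      _ ≤ ((Y + 1) ^ 2) ^ 2 := Nat.pow_le_pow_left h1 2
      _ = (Y + 1) ^ 4 := by ring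
  have hN18 : (N : ℝ) ^ (1 / 8 : ℝ) ≤ ((Y : ℝ) + 1) ^ (1 / 2 : ℝ) := by
    have h1 : (N : ℝ) ≤ ((Y : ℝ) + 1) ^ (4 : ℝ) := by
      have : (N : ℝ) ≤ ((Y : ℝ) + 1) ^ (4 : ℕ) := by exact_mod_cast hY4'.le
      rw [← Real.rpow_natCast] at this
      exact_mod_cast this
    calc (N : ℝ) ^ (1 / 8 : ℝ) ≤ (((Y : ℝ) + 1) ^ (4 : ℝ)) ^ (1 / 8 : ℝ) :=
          Real.rpow_le_rpow (by positivity) h1 (by norm_num)
      _ = ((Y : ℝ) + 1) ^ (1 / 2 : ℝ) := by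
          rw [← Real.rpow_mul (by positivity)]
          norm_num
  by_cases hlarge : 10 ^ 8 ≤ Y
  · -- many squares
    set P := (Finset.range (Y + 1)).filter fun p => p.Prime ∧ ¬ p ∣ N with hP
    have hPc : ∀ p ∈ P, p.Prime ∧ p ≤ Y ∧ Nat.Coprime p N := by
      intro p hp
      rw [hP, Finset.mem_filter, Finset.mem_range] at hp
      exact ⟨hp.2.1, by omega, (Nat.Prime.coprime_iff_not_dvd hp.2.1).2 hp.2.2⟩
    have hinj : Set.InjOn (sqc 𝔣) (P : Set ℕ) := by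
      intro p hp p' hp' he
      obtain ⟨h3, h4, h5⟩ := hPc p hp
      obtain ⟨h3', h4', h5'⟩ := hPc p' hp'
      have h6 : Ideal.Quotient.mk 𝔣 ((p : 𝓞 K) ^ 2) = Ideal.Quotient.mk 𝔣 ((p' : 𝓞 K) ^ 2) := by
        rw [← sqc_val h5, ← sqc_val h5', he]
      rw [Ideal.Quotient.eq] at h6
      by_contra hne
      have h7 : (((p : ℤ) ^ 2 - (p' : ℤ) ^ 2 : ℤ) : 𝓞 K) ∈ 𝔣 := by
        push_cast
        exact h6
      have h8 : (p : ℤ) ^ 2 - (p' : ℤ) ^ 2 ≠ 0 := by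
        intro h9
        apply hne
        have h10 : (p : ℤ) ^ 2 = (p' : ℤ) ^ 2 := by linarith
        have h11 : p ^ 2 = p' ^ 2 := by exact_mod_cast h10
        exact Nat.pow_left_injective (by norm_num : 2 ≠ 0) h11
      have h12 := int_mem h2 h7 h8
      have hp2 : (2 : ℤ) ≤ p := by exact_mod_cast h3.two_le
      have hp2' : (2 : ℤ) ≤ p' := by exact_mod_cast h3'.two_le
      have hpY : (p : ℤ) ≤ Y := by exact_mod_cast h4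
      have hpY' : (p' : ℤ) ≤ Y := by exact_mod_cast h4'
      have h13 : |(p : ℤ) ^ 2 - (p' : ℤ) ^ 2| < (Y : ℤ) ^ 2 := by
        rw [abs_lt]
        constructor <;> nlinarith
      have h14 : ((p : ℤ) ^ 2 - (p' : ℤ) ^ 2) ^ 2 < ((Y : ℤ) ^ 2) ^ 2 := by
        rw [sq_lt_sq]
        exact h13.trans_le (le_abs_self _)
      have h15 : ((Y : ℤ) ^ 4) ≤ N := by exact_mod_cast hY4
      have h16 : ((Y : ℤ) ^ 2) ^ 2 = (Y : ℤ) ^ 4 := by ring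
      have h17 : (Ideal.absNorm 𝔣 : ℤ) = N := rfl
      rw [h17] at h12
      linarith
    have h3 := hRST (P.image (sqc 𝔣)) (by
      intro ψ hψ u hu x hx
      rw [Finset.mem_image] at hu
      obtain ⟨p, hp, rfl⟩ := hu
      obtain ⟨h3, h4, h5⟩ := hPc p hp
      rw [sqc_val h5, Ideal.Quotient.eq] at hx
      obtain ⟨w, hw⟩ := exists_inv h5
      have hw2 : w ^ 2 * (p : 𝓞 K) ^ 2 - 1 ∈ 𝔣 := by
        have : w ^ 2 * (p : 𝓞 K) ^ 2 - 1 = (w * (p : 𝓞 K) + 1) * (w * (p : 𝓞 K) - 1) := by ring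
        rw [this]
        exact Ideal.mul_mem_left _ _ hw
      rw [congr_val (hS ψ hψ) htop hx hw2, ← Ideal.span_singleton_pow, map_pow]
      exact hq ψ hψ p h5)
    rw [Finset.card_image_of_injOn hinj] at h3
    have h4 := num Y N hlarge hN0 hY4'
    have hYr : (10 : ℝ) ^ 8 ≤ Y := by exact_mod_cast hlarge
    have hsq : 0 < Real.sqrt Y := Real.sqrt_pos.2 (by linarith)
    have h5 : (S.card : ℝ) * Real.sqrt Y ≤ h * N :=
      (mul_le_mul_of_nonneg_left h4 (Nat.cast_nonneg _)).trans h3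
    have h6 : ((Y : ℝ) + 1) ^ (1 / 2 : ℝ) ≤ 2 * Real.sqrt Y := by
      rw [← Real.sqrt_eq_rpow, Real.sqrt_le_left (by positivity), mul_pow, Real.sq_sqrt (by linarith)]
      linarith
    have h7 : h * N ≤ h * 2 * (N : ℝ) ^ (7 / 8 : ℝ) * Real.sqrt Y := by
      have h8 : (N : ℝ) ≤ (N : ℝ) ^ (7 / 8 : ℝ) * (2 * Real.sqrt Y) := by
        calc (N : ℝ) = (N : ℝ) ^ (7 / 8 : ℝ) * (N : ℝ) ^ (1 / 8 : ℝ) := hNsplit
          _ ≤ _ := mul_le_mul_of_nonneg_left (hN18.trans h6) hN78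
      calc h * N ≤ h * ((N : ℝ) ^ (7 / 8 : ℝ) * (2 * Real.sqrt Y)) :=
            mul_le_mul_of_nonneg_left h8 hh0
        _ = _ := by ring
    have h8 : (S.card : ℝ) ≤ h * 2 * (N : ℝ) ^ (7 / 8 : ℝ) :=
      le_of_mul_le_mul_right (h5.trans h7) hsq
    have h9 : 0 ≤ h * (10 ^ 8 + 1 : ℝ) ^ (1 / 2 : ℝ) * (N : ℝ) ^ (7 / 8 : ℝ) := by positivity
    calc (S.card : ℝ) ≤ h * 2 * (N : ℝ) ^ (7 / 8 : ℝ) := h8
      _ ≤ h * 2 * (N : ℝ) ^ (7 / 8 : ℝ) + h * (10 ^ 8 + 1 : ℝ) ^ (1 / 2 : ℝ) *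
          (N : ℝ) ^ (7 / 8 : ℝ) := by linarith
      _ = _ := by ring
  · push Not at hlarge
    have h3 := hRST {1} (by
      intro ψ hψ u hu x hx
      rw [Finset.mem_singleton] at hu
      rw [hu, Units.val_one, ← map_one (Ideal.Quotient.mk 𝔣), Ideal.Quotient.eq] at hx
      have h4 := congr_val (w := 1) (hS ψ hψ) htop hx (by
        rw [one_mul, sub_self]
        exact zero_mem _)
      rw [h4, Ideal.span_singleton_one, ← Ideal.one_eq_top]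
      exact map_one ψ)
    rw [Finset.card_singleton, Nat.cast_one, mul_one] at h3
    have hYr : (Y : ℝ) + 1 ≤ 10 ^ 8 + 1 := by
      have : (Y : ℝ) < 10 ^ 8 := by exact_mod_cast hlarge
      linarith
    have h4 : (N : ℝ) ^ (1 / 8 : ℝ) ≤ (10 ^ 8 + 1 : ℝ) ^ (1 / 2 : ℝ) :=
      hN18.trans (Real.rpow_le_rpow (by positivity) hYr (by norm_num))
    have h5 : (N : ℝ) ≤ (N : ℝ) ^ (7 / 8 : ℝ) * (10 ^ 8 + 1 : ℝ) ^ (1 / 2 : ℝ) := by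
      calc (N : ℝ) = (N : ℝ) ^ (7 / 8 : ℝ) * (N : ℝ) ^ (1 / 8 : ℝ) := hNsplit
        _ ≤ _ := mul_le_mul_of_nonneg_left h4 hN78
    have h6 : 0 ≤ h * 2 * (N : ℝ) ^ (7 / 8 : ℝ) := by positivity
    calc (S.card : ℝ) ≤ h * N := h3
      _ ≤ h * ((N : ℝ) ^ (7 / 8 : ℝ) * (10 ^ 8 + 1 : ℝ) ^ (1 / 2 : ℝ)) :=
          mul_le_mul_of_nonneg_left h5 hh0
      _ ≤ h * 2 * (N : ℝ) ^ (7 / 8 : ℝ) + h * ((N : ℝ) ^ (7 / 8 : ℝ) *
          (10 ^ 8 + 1 : ℝ) ^ (1 / 2 : ℝ)) := by linarith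
      _ = _ := by ring

end Pool.Agent.Y25.NV
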